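import Pool.Agent.Lib_helper66.CYL.N.TOP

/-!
# MP_45e720_ag: punctured discs and cylinders in surfaces

`X` is a compact connected complex surface with ample canonical bundle (`CanonicalAmple`), which
carries a nonzero invariant jet differential of some order and positive weight
(`HasInvariantJetDifferential`). By a theorem of Green and Griffiths all surfaces of general type
have such a jet differential, so that the second hypothesis follows from the first. This theorem
is not formalised here: the existence of the jet differential is a hypothesis on `X`.

The theorem. Let `F` be a holomorphic map from the punctured unit disc to `X` such that
`|w F'(w)|` is bounded (`IsPuncturedBrody`). Then `F` extends to a holomorphic map from the unit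
disc, or there are `w_n → 0` such that `F (w_n exp z)` converges for all `z` in `ℂ` to `g z`, where
`g : ℂ → X` is a nonconstant Brody curve with algebraic image (`HasAlgebraicImage`): for some
finite set `Z` in `X` and all open sets `W` containing `Z`, the image `g (ℂ)` is contained in the
union of `W` and the image of a closed disc. (So `g (ℂ)` minus `Z` is an analytic curve in `X` minus
`Z`, its closure is a compact analytic curve by the theorem of Remmert and Stein, and this curve
is the closure of an image of `ℂ`: it is a rational or an elliptic curve, and `X` receives a
nonconstant map from a complex torus.)

Consequences for Lang's problem: let `X` be as above, and suppose that all holomorphic maps from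
complex tori to `X` are constant.

(a) Every holomorphic `F : 𝔻 \ {0} → X` with `|w F'(w)|` bounded extends over `0`.

(b) Every Brody curve `f : ℂ → X` with a period `p ≠ 0` is constant; in other words, every
holomorphic `F : ℂ \ {0} → X` with `|w F'(w)|` bounded is constant. (By (a) it extends to the
Riemann sphere, and `X` contains no rational curve.)

(c) Every entire curve `f : ℂ → X` with `|f'(z)| ≤ C / (1 + |z|)` is constant. (Apply (a) to
`f (1 / w)`.)

Idea of the proof. The curve `f z = F (exp z)` on the left half-plane has bounded derivative and the
period `2 π i`. The limits of its translates to the left are entire Brody curves with the period
`2 π i`. A curve with this period which moves by at most `δ` near all points at distance at most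
`ℓ` of a point moves by at most `δ / 2` near this point (`δ ≤ η₀`); hence if all limits are
constant, then `f` converges, and `F` extends. Otherwise there is a closed translation invariant
set `M` of limits which is minimal among those that contain a nonconstant curve. If an invariant
jet differential does not vanish on `M` then there is a uniformly immersed curve in `M`, which is
doubly periodic by the theorem `BrodyRigidity`. If it vanishes on `M`, then the nonconstant curves
of `M` satisfy a regular differential equation off countably many points, as in the theorem
`MinimalBrodySets`, and one has uniform propagation of small displacements near the places where the
curves are not nearly constant. Suppose that a stable curve `f₀` in `M` is a limit of curves in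
`M` with other images. The linearised displacement and the velocity of `f₀` give an entire vector
valued function `σ` with the period `2 π i`, a section of the inverse image of a power of the
canonical bundle. The logarithm `μ` of the maximum of `σ` on vertical lines is convex. At the
active places (where `f₀` moves) the slopes of `μ` are bounded by the propagation, and there is a
definite bend of `μ` since the canonical bundle is positive. So there are only finitely many
active places (modulo the period): `f₀` converges at both ends, and its image is a rational curve.
Otherwise all curves of `M` near `f₀` have the same image, by minimality the same is true near
each nonconstant member of `M`, and it remains to control the places where the curves are nearly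
constant: in a calm vertical strip which ends at an active place a curve `h` of `M` is near to the
end of a curve `h₀` which is calm on a half-plane, and a norm equation along the strip shows that
the values of `h` in the strip are values of the holomorphic extension of `h₀` to the puncture.
By compactness finitely many such ends suffice; their centres are the points of `Z`.
-/

open scoped Manifold ContDiff

namespace Pool.Agent.Results.MP_45e720_ag.CylinderTheorem

open Pool.Agent Pool.Agent.BrodyRigid Pool.Agent.MinBrody Pool.Agent.Cylinder

theorem result (E X : Type) [NormedAddCommGroup E] [NormedSpace ℂ E] [FiniteDimensional ℂ E]
    [TopologicalSpace X] [CompactSpace X] [T2Space X] [ConnectedSpace X] [ChartedSpace E X]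
    [IsManifold 𝓘(ℂ, E) ω X] (hX : CanonicalAmple E X) (hJ : HasInvariantJetDifferential E X)
    (F : ℂ → X) (hF : IsPuncturedBrody E F) :
    ExtendsOverZero E F ∨ ∃ g : ℂ → X, IsEndLimit F g ∧ IsBrodyCurve (E := E) g ∧
      (∃ z z', g z ≠ g z') ∧ HasAlgebraicImage g :=
  CYL.disc_main hX hJ F hF

end Pool.Agent.Results.MP_45e720_ag.CylinderTheorem
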